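import Pool.Agent.Q98.SPN.Stm

/-!
# Project GSP, package LEV: cover of the parts of level `k` of all blocks
-/

set_option autoImplicit false

open scoped Matrix.Norms.L2Operator Matrix
open Finset

namespace Pool.Agent.U454.GSP.LEV

open Pool.Agent.Q98.SPN
open Pool.Agent.H172R2.GS (sg XX arrays)

theorem t_LEV : S_LR → S_CNT → S_LEV := by
  classical
  intro hLR hCNT ι _ _ d q k z s hz hz2 hs
  choose G hG1 hG2 using fun (d r : ℕ) => hLR d r k s hs
  set P : (ι → ℕ) → Finset ((i : ι) → Matrix (Fin (d i)) (Fin (d i)) ℂ) :=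
    fun r => Fintype.piFinset (fun i => G (d i) (r i)) with hP
  set A : Finset (ι → ℕ) := (arrays ι q).filter (fun r => ∑ i, d i * r i ≤ q) with hA
  have hPc : ∀ r ∈ A, (P r).card ≤ 5 ^ (2 * (4 * k + 5) * q) := by
    intro r hr
    have hr' : ∑ i, d i * r i ≤ q := (Finset.mem_filter.1 hr).2
    rw [hP, Fintype.card_piFinset]
    calc ∏ i, (G (d i) (r i)).card ≤ ∏ i, 5 ^ (2 * (d i * r i) * (4 * k + 5)) :=
          Finset.prod_le_prod' (fun i _ => hG1 (d i) (r i))
      _ = 5 ^ (∑ i, 2 * (d i * r i) * (4 * k + 5)) := by rw [Finset.prod_pow_eq_pow_sum]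
      _ = 5 ^ (2 * (4 * k + 5) * ∑ i, d i * r i) := by
          congr 1
          rw [Finset.mul_sum]
          apply Finset.sum_congr rfl
          intro i _
          ring
      _ ≤ 5 ^ (2 * (4 * k + 5) * q) :=
          Nat.pow_le_pow_right (by norm_num) (Nat.mul_le_mul_left _ hr')
  have hFc : (A.biUnion P).card ≤ (arrays ι q).card * 5 ^ (2 * (4 * k + 5) * q) := by
    calc (A.biUnion P).card ≤ ∑ r ∈ A, (P r).card := Finset.card_biUnion_le
      _ ≤ ∑ r ∈ A, 5 ^ (2 * (4 * k + 5) * q) := Finset.sum_le_sum hPc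
      _ = A.card * 5 ^ (2 * (4 * k + 5) * q) := by rw [Finset.sum_const, smul_eq_mul]
      _ ≤ (arrays ι q).card * 5 ^ (2 * (4 * k + 5) * q) :=
          Nat.mul_le_mul_right _ (Finset.card_le_card (Finset.filter_subset _ _))
  refine ⟨A.biUnion P, ?_, ?_⟩
  · have h1 := hCNT ι q z hz hz2
    have h2 : ((A.biUnion P).card : ℝ) ≤ ((arrays ι q).card : ℝ) * 5 ^ (2 * (4 * k + 5) * q) := by
      exact_mod_cast hFc
    have hzq : (0 : ℝ) ≤ z ^ q := by positivity
    calc ((A.biUnion P).card : ℝ) * z ^ q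
        ≤ ((arrays ι q).card : ℝ) * 5 ^ (2 * (4 * k + 5) * q) * z ^ q :=
          mul_le_mul_of_nonneg_right h2 hzq
      _ = (((arrays ι q).card : ℝ) * z ^ q) * 5 ^ (2 * (4 * k + 5) * q) := by ring
      _ ≤ Real.exp (2 * z * Fintype.card ι) * 5 ^ (2 * (4 * k + 5) * q) :=
          mul_le_mul_of_nonneg_right h1 (by positivity)
  · intro r W V hr1 hr2 hW hV
    choose Z hZ1 hZ2 using fun i => hG2 (d i) (r i) (W i) (V i) (hW i) (hV i)
    refine ⟨Z, ?_, hZ2⟩
    rw [Finset.mem_biUnion]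
    refine ⟨r, ?_, ?_⟩
    · rw [hA, Finset.mem_filter]
      refine ⟨?_, hr2⟩
      simp only [arrays, Finset.mem_filter, Fintype.mem_piFinset, Finset.mem_range]
      refine ⟨fun i => ?_, hr1⟩
      have : r i ≤ ∑ i, r i := Finset.single_le_sum (fun _ _ => Nat.zero_le _) (Finset.mem_univ i)
      omega
    · rw [hP, Fintype.mem_piFinset]
      exact hZ1

end Pool.Agent.U454.GSP.LEV
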